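import Mathlib.Combinatorics.HalesJewett
import Mathlib.Tactic

/-!
The generalized van der Waerden game: a bound on the length of Maker's win that depends
only on the number of elements of the target set.

Proof.  Hales-Jewett gives a dimension `ι` for alphabet size `n` and two colours.  The board
`T = { ∑ i, s (x i) }`, `x : ι → Fin n`, has at most `n ^ |ι|` elements, and every 2-colouring of
`T` has a monochromatic copy of `S`.  Strategy stealing on `T` makes the first player win.
-/

set_option autoImplicit false

namespace Pool.Agent.Results.MP_3e1131_co.BoundedLengthH27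

/-- The set `M` of natural numbers contains a copy `a S + b` of `S`, with `a ≥ 1` a positive
integer and `b` an integer. -/
def HasCopy (S M : Finset ℕ) : Prop :=
  ∃ a : ℕ, 1 ≤ a ∧ ∃ b : ℤ, ∀ s ∈ S, ∃ m ∈ M, (m : ℤ) = a * s + b

/-- Maker moves first.  A strategy of Maker is a function `σ` that sees the list of the selections
Breaker has made so far; `makerMove σ β k` is Maker's selection number `k` (counting from `0`)
when she follows `σ` and Breaker's selections are `β 0, β 1, …`. -/
def makerMove (σ : List ℕ → ℕ) (β : ℕ → ℕ) (k : ℕ) : ℕ := σ ((List.range k).map β)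

/-- Maker's selection number `k` is a number that neither player has claimed before. -/
def LegalMaker (σ : List ℕ → ℕ) (β : ℕ → ℕ) (k : ℕ) : Prop :=
  ∀ j < k, makerMove σ β k ≠ makerMove σ β j ∧ makerMove σ β k ≠ β j

/-- Breaker's selection number `k`, made just after Maker's selection number `k`, is a number
that neither player has claimed before. -/
def LegalBreaker (σ : List ℕ → ℕ) (β : ℕ → ℕ) (k : ℕ) : Prop :=
  (∀ j < k, β k ≠ β j) ∧ ∀ j ≤ k, β k ≠ makerMove σ β j

/-- Maker has an `N`-move strategy for `S`: a strategy that, against every legal play of Breaker,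
makes for some `n ≤ N` her first `n` selections legally and owns a copy of `S` after them. -/
def HasStrategy (S : Finset ℕ) (N : ℕ) : Prop :=
  ∃ σ : List ℕ → ℕ, ∀ β : ℕ → ℕ, (∀ k, LegalBreaker σ β k) →
    ∃ n ≤ N, (∀ k < n, LegalMaker σ β k) ∧ HasCopy S ((Finset.range n).image (makerMove σ β))

/-! ### The abstract board game -/

/-- `W Win b n U X`: the owner of `X` reaches `Win` at the end of the play on the free cells `U`
(with `n = |U|`); `b` says whether she moves next. -/
def W (Win : Finset ℕ → Prop) : Bool → ℕ → Finset ℕ → Finset ℕ → Prop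
  | _, 0, _, X => Win X
  | true, n + 1, U, X => ∃ u ∈ U, W Win false n (U.erase u) (insert u X)
  | false, n + 1, U, X => ∀ u ∈ U, W Win true n (U.erase u) X

theorem W_zero (Win : Finset ℕ → Prop) (b : Bool) (U X : Finset ℕ) :
    W Win b 0 U X ↔ Win X := by
  cases b <;> simp [W]

theorem W_true_succ (Win : Finset ℕ → Prop) (n : ℕ) (U X : Finset ℕ) :
    W Win true (n + 1) U X ↔ ∃ u ∈ U, W Win false n (U.erase u) (insert u X) := by
  simp [W]

theorem W_false_succ (Win : Finset ℕ → Prop) (n : ℕ) (U X : Finset ℕ) :
    W Win false (n + 1) U X ↔ ∀ u ∈ U, W Win true n (U.erase u) X := by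
  simp [W]

theorem determined (Win : Finset ℕ → Prop) (T : Finset ℕ)
    (hT : ∀ A ⊆ T, Win A ∨ Win (T \ A)) :
    ∀ (n : ℕ) (U X Y : Finset ℕ), U.card = n → Disjoint U X → Disjoint U Y → Disjoint X Y →
      U ∪ X ∪ Y = T → W Win true n U X ∨ W Win false n U Y := by
  intro n
  induction n with
  | zero =>
    intro U X Y hU _ _ hXY hT'
    rw [W_zero, W_zero]
    have hU0 : U = ∅ := Finset.card_eq_zero.mp hU
    subst hU0
    have hX : X ⊆ T := by
      rw [← hT']; intro a ha; simp [ha]
    have hY : T \ X = Y := by
      rw [← hT']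
      ext a
      simp only [Finset.mem_sdiff, Finset.mem_union, Finset.notMem_empty, false_or]
      constructor
      · rintro ⟨h | h, h'⟩
        · exact absurd h h'
        · exact h
      · intro h
        exact ⟨Or.inr h, fun h' => (Finset.disjoint_left.mp hXY h') h⟩
    have := hT X hX
    rwa [hY] at this
  | succ n ih =>
    intro U X Y hU hUX hUY hXY hT'
    by_cases h : W Win true (n + 1) U X
    · exact Or.inl h
    · right
      rw [W_false_succ]
      intro u hu
      rw [W_true_succ] at h
      push Not at h
      have h1 := h u hu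
      have h2 := ih (U.erase u) Y (insert u X) (by rw [Finset.card_erase_of_mem hu, hU]; rfl)
        (hUY.mono_left (Finset.erase_subset _ _))
        (by
          rw [Finset.disjoint_insert_right]
          exact ⟨Finset.notMem_erase _ _, hUX.mono_left (Finset.erase_subset _ _)⟩)
        (by
          rw [Finset.disjoint_insert_right]
          exact ⟨Finset.disjoint_left.mp hUY hu, hXY.symm⟩)
        (by
          rw [← hT']
          ext a
          simp only [Finset.mem_union, Finset.mem_erase, Finset.mem_insert]
          by_cases ha : a = u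
          · subst ha; simp [hu]
          · simp [ha]; tauto)
      exact h2.resolve_right h1

theorem steal (Win : Finset ℕ → Prop) (hmono : ∀ X Y : Finset ℕ, X ⊆ Y → Win X → Win Y) (n : ℕ) :
    (∀ (U X : Finset ℕ) (z : ℕ), U.card = n + 1 → z ∈ U → W Win true (n + 1) U X →
      W Win true n (U.erase z) (insert z X)) ∧
    (∀ (U X : Finset ℕ) (z : ℕ), U.card = n + 1 → z ∈ U → W Win false (n + 1) U X →
      W Win false n (U.erase z) (insert z X)) ∧
    (∀ (U X : Finset ℕ), U.card = n + 1 → W Win false (n + 1) U X → W Win true (n + 1) U X) := by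
  have hC : ∀ m : ℕ,
      (∀ (U X : Finset ℕ) (z : ℕ), U.card = m + 1 → z ∈ U → W Win false (m + 1) U X →
        W Win false m (U.erase z) (insert z X)) →
      (∀ (U X : Finset ℕ), U.card = m + 1 → W Win false (m + 1) U X →
        W Win true (m + 1) U X) := by
    intro m hB U X hU h
    obtain ⟨u, hu⟩ : U.Nonempty := Finset.card_pos.mp (by omega)
    rw [W_true_succ]
    exact ⟨u, hu, hB U X u hU hu h⟩
  induction n with
  | zero =>
    have hB : ∀ (U X : Finset ℕ) (z : ℕ), U.card = 0 + 1 → z ∈ U → W Win false (0 + 1) U X →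
        W Win false 0 (U.erase z) (insert z X) := by
      intro U X z _ hz h
      rw [W_false_succ] at h
      have := h z hz
      rw [W_zero] at this ⊢
      exact hmono _ _ (Finset.subset_insert _ _) this
    refine ⟨?_, hB, hC 0 hB⟩
    intro U X z hU hz h
    rw [W_true_succ] at h
    obtain ⟨u, hu, h⟩ := h
    rw [W_zero] at h ⊢
    obtain ⟨w, hw⟩ := Finset.card_eq_one.mp hU
    subst hw
    rw [Finset.mem_singleton] at hu hz
    subst hu
    subst hz
    exact h
  | succ n ih =>
    obtain ⟨ihA, ihB, ihC⟩ := ih
    have hB : ∀ (U X : Finset ℕ) (z : ℕ), U.card = n + 1 + 1 → z ∈ U →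
        W Win false (n + 1 + 1) U X → W Win false (n + 1) (U.erase z) (insert z X) := by
      intro U X z hU hz h
      rw [W_false_succ] at h ⊢
      intro u hu
      have hu' : u ∈ U := Finset.mem_of_mem_erase hu
      have hne : u ≠ z := Finset.ne_of_mem_erase hu
      have h1 := ihA (U.erase u) X z (by rw [Finset.card_erase_of_mem hu', hU]; rfl)
        (Finset.mem_erase.mpr ⟨hne.symm, hz⟩) (h u hu')
      rwa [Finset.erase_right_comm] at h1
    refine ⟨?_, hB, hC _ hB⟩
    intro U X z hU hz h
    rw [W_true_succ] at h
    obtain ⟨u, hu, h⟩ := h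
    by_cases hne : u = z
    · subst hne
      exact ihC _ _ (by rw [Finset.card_erase_of_mem hu, hU]; rfl) h
    · have h1 := ihB (U.erase u) (insert u X) z (by rw [Finset.card_erase_of_mem hu, hU]; rfl)
        (Finset.mem_erase.mpr ⟨fun h => hne h.symm, hz⟩) h
      rw [W_true_succ]
      refine ⟨u, Finset.mem_erase.mpr ⟨hne, hu⟩, ?_⟩
      rwa [Finset.erase_right_comm, Finset.insert_comm] at h1

theorem first_wins (Win : Finset ℕ → Prop) (hmono : ∀ X Y : Finset ℕ, X ⊆ Y → Win X → Win Y)
    (T : Finset ℕ) (hT : ∀ A ⊆ T, Win A ∨ Win (T \ A)) : W Win true T.card T ∅ := by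
  have h := determined Win T hT T.card T ∅ ∅ rfl (Finset.disjoint_empty_right _)
    (Finset.disjoint_empty_right _) (Finset.disjoint_empty_right _) (by simp)
  rcases h with h | h
  · exact h
  · rcases Nat.eq_zero_or_pos T.card with h0 | h0
    · rw [h0, W_zero] at h ⊢
      exact h
    · obtain ⟨m, hm⟩ : ∃ m, T.card = m + 1 := ⟨T.card - 1, by omega⟩
      rw [hm] at h ⊢
      exact (steal Win hmono m).2.2 T ∅ hm h

/-! ### The game on the natural numbers -/

/-- Maker can win within `k` further selections from the position `(M, B)`. -/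
def Good (S : Finset ℕ) : ℕ → Finset ℕ → Finset ℕ → Prop
  | 0, M, _ => HasCopy S M
  | k + 1, M, B => HasCopy S M ∨
      ∃ x ∉ M ∪ B, ∀ y ∉ insert x (M ∪ B), Good S k (insert x M) (insert y B)

theorem HasCopy.mono {S M M' : Finset ℕ} (h : HasCopy S M) (hM : M ⊆ M') : HasCopy S M' := by
  obtain ⟨a, ha, b, hb⟩ := h
  refine ⟨a, ha, b, fun s hs => ?_⟩
  obtain ⟨m, hm, e⟩ := hb s hs
  exact ⟨m, hM hm, e⟩

theorem Good.succ {S : Finset ℕ} {k : ℕ} : ∀ {M B : Finset ℕ}, Good S k M B →
    Good S (k + 1) M B := by
  induction k with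
  | zero => intro M B h; exact Or.inl h
  | succ k ih =>
    intro M B h
    rcases h with h | ⟨x, hx, h⟩
    · exact Or.inl h
    · exact Or.inr ⟨x, hx, fun y hy => ih (h y hy)⟩

theorem Good.mono {S : Finset ℕ} {k l : ℕ} (hkl : k ≤ l) {M B : Finset ℕ} (h : Good S k M B) :
    Good S l M B := by
  induction l, hkl using Nat.le_induction with
  | base => exact h
  | succ l _ ih => exact ih.succ

theorem good_of_W (S : Finset ℕ) : ∀ (n : ℕ) (U M B : Finset ℕ), U.card = n →
    Disjoint U (M ∪ B) → W (HasCopy S) true n U M → Good S n M B := by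
  intro n
  induction n using Nat.strong_induction_on with
  | _ n ih =>
    intro U M B hU hd h
    cases n with
    | zero => rwa [W_zero] at h
    | succ n =>
      rw [W_true_succ] at h
      obtain ⟨u, hu, h⟩ := h
      refine Or.inr ⟨u, Finset.disjoint_left.mp hd hu, fun y hy => ?_⟩
      cases n with
      | zero => rwa [W_zero] at h
      | succ n =>
        rw [W_false_succ] at h
        have hcard : (U.erase u).card = n + 1 := by
          rw [Finset.card_erase_of_mem hu, hU]; rfl
        obtain ⟨v, hv, hyv⟩ : ∃ v ∈ U.erase u, y ∈ U.erase u → v = y := by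
          by_cases hyU : y ∈ U.erase u
          · exact ⟨y, hyU, fun _ => rfl⟩
          · obtain ⟨v, hv⟩ : (U.erase u).Nonempty := Finset.card_pos.mp (by omega)
            exact ⟨v, hv, fun h' => absurd h' hyU⟩
        refine (ih n (by omega) ((U.erase u).erase v) (insert u M) (insert y B) ?_ ?_
          (h v hv)).succ
        · rw [Finset.card_erase_of_mem hv, hcard]; rfl
        · rw [Finset.disjoint_left]
          intro w hw hw'
          have hw1 : w ∈ U.erase u := Finset.mem_of_mem_erase hw
          have hwv : w ≠ v := Finset.ne_of_mem_erase hw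
          have hwu : w ≠ u := Finset.ne_of_mem_erase hw1
          have hwU : w ∈ U := Finset.mem_of_mem_erase hw1
          have hnot := Finset.disjoint_left.mp hd hwU
          simp only [Finset.mem_union, Finset.mem_insert] at hw' hnot
          rcases hw' with (h1 | h1) | (h1 | h1)
          · exact hwu h1
          · exact hnot (Or.inl h1)
          · subst h1
            exact hwv (hyv hw1).symm
          · exact hnot (Or.inr h1)

theorem makerMove_zero (σ : List ℕ → ℕ) (β : ℕ → ℕ) : makerMove σ β 0 = σ [] := rfl

/-- From the recursive form to an explicit strategy. -/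
theorem strategy_of_good (S : Finset ℕ) : ∀ (k : ℕ) (M B : Finset ℕ), Good S k M B →
    ∃ σ : List ℕ → ℕ, ∀ β : ℕ → ℕ, (∀ j, LegalBreaker σ β j ∧ β j ∉ M ∪ B) →
      ∃ n ≤ k, (∀ j < n, LegalMaker σ β j ∧ makerMove σ β j ∉ M ∪ B) ∧
        HasCopy S (M ∪ (Finset.range n).image (makerMove σ β)) := by
  intro k
  induction k with
  | zero =>
    intro M B h
    refine ⟨fun _ => 0, fun β _ => ⟨0, le_refl _, fun j hj => absurd hj (Nat.not_lt_zero _), ?_⟩⟩
    have h' : HasCopy S M := h
    simpa using h'
  | succ k ih =>
    intro M B h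
    rcases h with h | ⟨x, hx, h⟩
    · refine ⟨fun _ => 0, fun β _ => ⟨0, Nat.zero_le _,
        fun j hj => absurd hj (Nat.not_lt_zero _), ?_⟩⟩
      simpa using h
    · have hex : ∀ y : ℕ, ∃ σ : List ℕ → ℕ, y ∉ insert x (M ∪ B) →
          ∀ β : ℕ → ℕ, (∀ j, LegalBreaker σ β j ∧ β j ∉ insert x M ∪ insert y B) →
            ∃ n ≤ k, (∀ j < n, LegalMaker σ β j ∧ makerMove σ β j ∉ insert x M ∪ insert y B) ∧
              HasCopy S (insert x M ∪ (Finset.range n).image (makerMove σ β)) := by
        intro y
        by_cases hy : y ∈ insert x (M ∪ B)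
        · exact ⟨fun _ => 0, fun h' => absurd hy h'⟩
        · obtain ⟨σ, hσ⟩ := ih (insert x M) (insert y B) (h y hy)
          exact ⟨σ, fun _ => hσ⟩
      choose τ hτ using hex
      let σ : List ℕ → ℕ := fun l => match l with
        | [] => x
        | y :: l => τ y l
      have hσ0 : ∀ β : ℕ → ℕ, makerMove σ β 0 = x := fun β => rfl
      have hσs : ∀ (β : ℕ → ℕ) (j : ℕ), makerMove σ β (j + 1) =
          makerMove (τ (β 0)) (fun i => β (i + 1)) j := by
        intro β j
        simp only [makerMove, List.range_succ_eq_map, List.map_cons, List.map_map]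
        rfl
      refine ⟨σ, fun β hβ => ?_⟩
      have hy : β 0 ∉ insert x (M ∪ B) := by
        rw [Finset.mem_insert]
        rintro (h1 | h1)
        · exact (hβ 0).1.2 0 le_rfl (by rw [hσ0]; exact h1)
        · exact (hβ 0).2 h1
      obtain ⟨n, hn, hleg, hcopy⟩ := hτ (β 0) hy (fun i => β (i + 1)) (by
        intro j
        refine ⟨⟨?_, ?_⟩, ?_⟩
        · intro i hi
          exact (hβ (j + 1)).1.1 (i + 1) (by omega)
        · intro i hi
          rw [← hσs β i]
          exact (hβ (j + 1)).1.2 (i + 1) (by omega)
        · simp only [Finset.mem_union, Finset.mem_insert]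
          rintro ((h1 | h1) | (h1 | h1))
          · exact (hβ (j + 1)).1.2 0 (by omega) (by rw [hσ0]; exact h1)
          · exact (hβ (j + 1)).2 (Finset.mem_union_left _ h1)
          · exact (hβ (j + 1)).1.1 0 (by omega) h1
          · exact (hβ (j + 1)).2 (Finset.mem_union_right _ h1))
      refine ⟨n + 1, by omega, ?_, ?_⟩
      · intro j hj
        cases j with
        | zero =>
          refine ⟨fun i hi => absurd hi (Nat.not_lt_zero _), ?_⟩
          rw [hσ0]
          exact hx
        | succ j =>
          obtain ⟨h1, h2⟩ := hleg j (by omega)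
          simp only [Finset.mem_union, Finset.mem_insert] at h2
          push Not at h2
          obtain ⟨⟨h3, h4⟩, h5, h6⟩ := h2
          refine ⟨?_, ?_⟩
          · intro i hi
            rw [hσs]
            cases i with
            | zero => exact ⟨by rw [hσ0]; exact h3, h5⟩
            | succ i =>
              rw [hσs]
              exact h1 i (by omega)
          · rw [hσs, Finset.mem_union]
            rintro (h7 | h7)
            · exact h4 h7
            · exact h6 h7
      · refine hcopy.mono ?_
        intro m hm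
        simp only [Finset.mem_union, Finset.mem_insert, Finset.mem_image, Finset.mem_range] at hm ⊢
        rcases hm with (h1 | h1) | ⟨i, hi, h1⟩
        · exact Or.inr ⟨0, by omega, by rw [hσ0]; exact h1.symm⟩
        · exact Or.inl h1
        · exact Or.inr ⟨i + 1, by omega, by rw [hσs]; exact h1⟩

/-! ### The board from Hales-Jewett -/

theorem exists_board (n : ℕ) : ∃ N : ℕ, ∀ S : Finset ℕ, S.card = n →
    ∃ T : Finset ℕ, T.card ≤ N ∧ ∀ A ⊆ T, HasCopy S A ∨ HasCopy S (T \ A) := by
  obtain ⟨ι, hι, hHJ⟩ := Combinatorics.Line.exists_mono_in_high_dimension (Fin n) Bool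
  classical
  refine ⟨Fintype.card (ι → Fin n), fun S hS => ?_⟩
  let e : Fin n ≃ S := (S.equivFinOfCardEq hS).symm
  let f : (ι → Fin n) → ℕ := fun x => ∑ i, ((e (x i) : S) : ℕ)
  refine ⟨Finset.univ.image f, ?_, ?_⟩
  · exact Finset.card_image_le
  · intro A hA
    obtain ⟨l, c, hc⟩ := hHJ (fun x => decide (f x ∈ A))
    have key : ∀ B : Finset ℕ, (∀ z : Fin n, f (l z) ∈ B) → HasCopy S B := by
      intro B hB
      refine ⟨(Finset.univ.filter (fun i => l.idxFun i = none)).card, ?_,
        ((∑ i ∈ Finset.univ.filter (fun i => ¬ l.idxFun i = none),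
          ((l.idxFun i).elim 0 (fun v => ((e v : S) : ℕ))) : ℕ) : ℤ), ?_⟩
      · rw [Nat.one_le_iff_ne_zero, ← Nat.pos_iff_ne_zero, Finset.card_pos]
        obtain ⟨i, hi⟩ := l.proper
        exact ⟨i, by simp [hi]⟩
      · intro s hs
        refine ⟨f (l (e.symm ⟨s, hs⟩)), hB _, ?_⟩
        have : f (l (e.symm ⟨s, hs⟩)) =
            (Finset.univ.filter (fun i => l.idxFun i = none)).card * s +
            ∑ i ∈ Finset.univ.filter (fun i => ¬ l.idxFun i = none),
              ((l.idxFun i).elim 0 (fun v => ((e v : S) : ℕ))) := by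
          simp only [f]
          rw [← Finset.sum_filter_add_sum_filter_not Finset.univ (fun i => l.idxFun i = none)]
          congr 1
          · rw [Finset.sum_congr rfl (g := fun _ => s)]
            · simp
            · intro i hi
              rw [Finset.mem_filter] at hi
              rw [Combinatorics.Line.apply_none _ _ _ hi.2]
              simp
          · refine Finset.sum_congr rfl ?_
            intro i hi
            rw [Finset.mem_filter] at hi
            obtain ⟨v, hv⟩ := Option.ne_none_iff_exists'.mp hi.2
            rw [Combinatorics.Line.apply_some hv, hv]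
            simp
        rw [this]
        push_cast
        ring
    cases c with
    | true =>
      left
      refine key A (fun z => ?_)
      have := hc z
      simpa using this
    | false =>
      right
      refine key _ (fun z => ?_)
      have := hc z
      simp only [decide_eq_false_iff_not] at this
      rw [Finset.mem_sdiff]
      exact ⟨Finset.mem_image_of_mem _ (Finset.mem_univ _), this⟩

/-- There is a function `C` such that Maker has a `C n`-move strategy for every set `S` of `n`
natural numbers, for every `n ≥ 1`. -/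
theorem result : ∃ C : ℕ → ℕ, ∀ n : ℕ, 1 ≤ n → ∀ S : Finset ℕ, S.card = n →
    HasStrategy S (C n) := by
  choose C hC using exists_board
  refine ⟨C, fun n _ S hS => ?_⟩
  obtain ⟨T, hTC, hT⟩ := hC n S hS
  have h1 := first_wins (HasCopy S) (fun X Y hXY h => h.mono hXY) T hT
  have h2 := good_of_W S T.card T ∅ ∅ rfl (by simp) h1
  obtain ⟨σ, hσ⟩ := strategy_of_good S (C n) ∅ ∅ (h2.mono hTC)
  refine ⟨σ, fun β hβ => ?_⟩
  obtain ⟨m, hm, hleg, hcopy⟩ := hσ β (fun j => ⟨hβ j, by simp⟩)
  refine ⟨m, hm, fun k hk => (hleg k hk).1, ?_⟩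
  simpa using hcopy

end Pool.Agent.Results.MP_3e1131_co.BoundedLengthH27
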